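import Pool.Agent.H21.LPT.Check

/-!
# LPT2: the checker with sparse certificates and tools given by their lists of pieces

`TL` = list of tools, a tool = list of its pieces (forms).  Node `br (64 t + j)`: piece `j` of tool `t`
is `> 0` (left) or `≤ 0` (right).  Leaf `tl t`: all the pieces of tool `t` are `≤ 0` on the path.  Leaf
`fk s c`: Farkas certificate: skip `s` constraints, then the low 25 bits of `c` = multiplier, the next 7
bits = number of constraints to skip, and so on.
-/

set_option autoImplicit false

namespace Pool.LPT2

open Pool.LPT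

/-- trees -/
inductive Tr : Type
  | fk (s c : ℕ) : Tr
  | tl (t : ℕ) : Tr
  | br (k : ℕ) (a b : Tr) : Tr

/-- combination of the constraints -/
def comb : List (Bool × List ℤ) → ℕ → ℕ → Bool × List ℤ
  | [], _, _ => (false, [])
  | _ :: E, s + 1, c => comb E s c
  | (b, l) :: E, 0, c =>
    if c = 0 then (false, [])
    else (b && !(c % 33554432 == 0) ||
        (comb E (c / 33554432 % 128) (c / 4294967296)).1,
      ladd (lmul (c % 33554432 : ℕ) l) (comb E (c / 33554432 % 128) (c / 4294967296)).2)

/-- Farkas test -/
def fark (E : List (Bool × List ℤ)) (s c : ℕ) : Bool :=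
  match comb E s c with
  | (_, []) => false
  | (b, h :: l) => lzero l && (decide (h < 0) || (decide (h ≤ 0) && b))

/-- piece of index `k` -/
def pc (TL : List (List (List ℤ))) (k : ℕ) : List ℤ := (TL.getD (k / 64) []).getD (k % 64) []

/-- all pieces `n, n + 1, ..` of the tool `t` are in `N` -/
def cov (N : List ℕ) (t : ℕ) : List (List ℤ) → ℕ → Bool
  | [], _ => true
  | _ :: l, n => mem (64 * t + n) N && cov N t l (n + 1)

/-- the checker -/
def check (TL : List (List (List ℤ))) : Tr → List (Bool × List ℤ) → List ℕ → Bool
  | .fk s c, E, _ => fark E s c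
  | .tl t, _, N => decide (t < TL.length) && decide ((TL.getD t []).length ≤ 64) && cov N t (TL.getD t []) 0
  | .br k a b, E, N =>
    check TL a ((true, pc TL k) :: E) N && check TL b ((false, lmul (-1) (pc TL k)) :: E) (k :: N)

lemma comb_sound (x : ℕ → ℝ) (E : List (Bool × List ℤ)) : ∀ s c : ℕ, (∀ e ∈ E, holds e x) →
    0 ≤ ev (comb E s c).2 x ∧ ((comb E s c).1 = true → 0 < ev (comb E s c).2 x) := by
  induction E with
  | nil => intro s c _; simp [comb, ev]
  | cons e E ih =>
    obtain ⟨b, l⟩ := e
    intro s c hE
    have hE' : ∀ e ∈ E, holds e x := fun e he => hE e (List.mem_cons_of_mem _ he)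
    have h0 : holds (b, l) x := hE _ List.mem_cons_self
    cases s with
    | succ s => exact ih _ _ hE'
    | zero =>
      unfold comb
      split_ifs with h1
      · simp [ev]
      · obtain ⟨i1, i2⟩ := ih (c / 33554432 % 128) (c / 4294967296) hE'
        have hk : (0 : ℝ) ≤ (((c % 33554432 : ℕ) : ℤ) : ℝ) := by
          have : 0 ≤ c % 33554432 := Nat.zero_le _
          exact_mod_cast this
        have hl : 0 ≤ ev l x := holds_nonneg h0
        simp only [ev_ladd, ev_lmul]
        refine ⟨by positivity, fun hs => ?_⟩
        rw [Bool.or_eq_true, Bool.and_eq_true] at hs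
        rcases hs with ⟨hs, hs2⟩ | hs
        · have h3 : 0 < ev l x := by
            unfold holds at h0
            simpa [hs] using h0
          have h4 : (0 : ℝ) < (((c % 33554432 : ℕ) : ℤ) : ℝ) := by
            have : 0 < c % 33554432 := by
              rcases Nat.eq_zero_or_pos (c % 33554432) with h | h
              · simp [h] at hs2
              · exact h
            exact_mod_cast this
          positivity
        · have := i2 hs
          positivity

lemma fark_sound (x : ℕ → ℝ) (hx : x 0 = 1) (E : List (Bool × List ℤ)) (s c : ℕ)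
    (hE : ∀ e ∈ E, holds e x) (h : fark E s c = true) : False := by
  obtain ⟨i1, i2⟩ := comb_sound x E s c hE
  unfold fark at h
  rcases hc : comb E s c with ⟨b, l⟩
  rw [hc] at h i1 i2
  cases l with
  | nil => simp at h
  | cons a l =>
    simp only [Bool.and_eq_true, Bool.or_eq_true, decide_eq_true_eq] at h
    obtain ⟨h1, h2⟩ := h
    have h3 : ev (a :: l) x = a := by
      have := ev_lzero l h1 (fun n => x (n + 1))
      simp [ev, this, hx]
    simp only [h3] at i1 i2
    rcases h2 with h2 | ⟨h2, h4⟩
    · have : ((a : ℤ) : ℝ) < 0 := by exact_mod_cast h2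
      linarith
    · have h5 := i2 h4
      have : ((a : ℤ) : ℝ) ≤ 0 := by exact_mod_cast h2
      linarith

lemma cov_sound (N : List ℕ) (t : ℕ) (l : List (List ℤ)) : ∀ n, cov N t l n = true →
    ∀ j < l.length, 64 * t + (n + j) ∈ N := by
  induction l with
  | nil => intro n _ j hj; simp at hj
  | cons a l ih =>
    intro n h j hj
    simp only [cov, Bool.and_eq_true] at h
    rcases j with _ | j
    · simpa using mem_sound _ _ h.1
    · have := ih (n + 1) h.2 j (by simpa using hj)
      have e : n + (j + 1) = n + 1 + j := by ring
      rw [e]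
      exact this

lemma check_sound (TL : List (List (List ℤ))) (x : ℕ → ℝ) (hx : x 0 = 1)
    (hT : ∀ P ∈ TL, ∃ f ∈ P, 0 < ev f x) (tr : Tr) :
    ∀ (E : List (Bool × List ℤ)) (N : List ℕ), (∀ e ∈ E, holds e x) →
      (∀ k ∈ N, ev (pc TL k) x ≤ 0) → check TL tr E N = true → False := by
  induction tr with
  | fk s c => intro E N hE hN h; exact fark_sound x hx E s c hE h
  | tl t =>
    intro E N hE hN h
    simp only [check, Bool.and_eq_true, decide_eq_true_eq] at h
    obtain ⟨⟨h1, h2⟩, h3⟩ := h
    have hmem : TL.getD t [] ∈ TL := by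
      rw [List.getD_eq_getElem _ _ h1]
      exact List.getElem_mem h1
    obtain ⟨f, hf, hf0⟩ := hT _ hmem
    obtain ⟨j, hj, hfj⟩ := List.getElem_of_mem hf
    have h4 := hN _ (cov_sound N t _ 0 h3 j hj)
    have hj64 : j < 64 := lt_of_lt_of_le hj h2
    have e1 : (64 * t + (0 + j)) / 64 = t := by omega
    have e2 : (64 * t + (0 + j)) % 64 = j := by omega
    have e3 : pc TL (64 * t + (0 + j)) = f := by
      unfold pc
      rw [e1, e2, List.getD_eq_getElem _ _ hj, hfj]
    rw [e3] at h4
    linarith
  | br k a b iha ihb =>
    intro E N hE hN h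
    simp only [check, Bool.and_eq_true] at h
    by_cases hp : 0 < ev (pc TL k) x
    · refine iha _ N ?_ hN h.1
      intro e he
      rcases List.mem_cons.1 he with he | he
      · rw [he]; simpa [holds] using hp
      · exact hE e he
    · push Not at hp
      refine ihb _ (k :: N) ?_ ?_ h.2
      · intro e he
        rcases List.mem_cons.1 he with he | he
        · rw [he]
          simp only [holds, ev_lmul]
          simpa using hp
        · exact hE e he
      · intro j hj
        rcases List.mem_cons.1 hj with hj | hj
        · rw [hj]; exact hp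
        · exact hN j hj

/-- SOUNDNESS: if the checker accepts, there is no point satisfying the root constraints at which every
tool has a piece `> 0` -/
theorem sound {F : List (Bool × List ℤ)} {TL : List (List (List ℤ))} {tr : Tr}
    (h : check TL tr F [] = true) (x : ℕ → ℝ) (hx : x 0 = 1) (hF : ∀ e ∈ F, holds e x)
    (hT : ∀ P ∈ TL, ∃ f ∈ P, 0 < ev f x) : False :=
  check_sound TL x hx hT tr F [] hF (fun k hk => by simp at hk) h

end Pool.LPT2
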