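import Mathlib

/-!
# LPT: a verified checker for refutation trees of linear systems with disjunctions

A form is a list of integers `[c0, c1, ..., cn]`, its value at `x` is `c0 x 0 + c1 x 1 + ...` (with
`x 0 = 1` the first coefficient is the constant term).
-/

set_option autoImplicit false

namespace Pool.LPT

/-- value of a form -/
def ev : List ℤ → (ℕ → ℝ) → ℝ
  | [], _ => 0
  | a :: l, x => a * x 0 + ev l (fun n => x (n + 1))

/-- sum of two forms -/
def ladd : List ℤ → List ℤ → List ℤ
  | [], m => m
  | a :: l, [] => a :: l
  | a :: l, b :: m => (a + b) :: ladd l m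

/-- multiple of a form -/
def lmul (k : ℤ) : List ℤ → List ℤ
  | [] => []
  | a :: l => (k * a) :: lmul k l

/-- all entries are zero -/
def lzero : List ℤ → Bool
  | [] => true
  | a :: l => a == 0 && lzero l

/-- trees -/
inductive Tr : Type
  | fk (c : ℕ) : Tr
  | tl (t : ℕ) : Tr
  | br (k : ℕ) (a b : Tr) : Tr

/-- base of the multipliers -/
def base : ℕ := 16777216

/-- combination of the constraints with the digits of `c`; the flag tells whether a strict
constraint is used -/
def comb : List (Bool × List ℤ) → ℕ → Bool × List ℤ
  | [], _ => (false, [])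
  | (s, l) :: E, c =>
    if c = 0 then (false, [])
    else if c % base = 0 then comb E (c / base)
    else ((comb E (c / base)).1 || s, ladd (lmul (c % base : ℕ) l) (comb E (c / base)).2)

/-- Farkas test -/
def fark (E : List (Bool × List ℤ)) (c : ℕ) : Bool :=
  match comb E c with
  | (_, []) => false
  | (s, h :: l) => lzero l && (decide (h < 0) || (decide (h ≤ 0) && s))

/-- membership -/
def mem (k : ℕ) : List ℕ → Bool
  | [] => false
  | a :: l => a == k || mem k l

/-- inclusion -/
def sub : List ℕ → List ℕ → Bool
  | [], _ => true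
  | a :: l, m => mem a m && sub l m

/-- the checker -/
def check (P : List (List ℤ)) (T : List (List ℕ)) :
    Tr → List (Bool × List ℤ) → List ℕ → Bool
  | .fk c, E, _ => fark E c
  | .tl t, _, N => decide (t < T.length) && sub (T.getD t []) N
  | .br k a b, E, N =>
    check P T a ((true, P.getD k []) :: E) N && check P T b ((false, lmul (-1) (P.getD k [])) :: E) (k :: N)

/-- a constraint holds at `x` -/
def holds (c : Bool × List ℤ) (x : ℕ → ℝ) : Prop := if c.1 then 0 < ev c.2 x else 0 ≤ ev c.2 x

lemma ev_ladd (l : List ℤ) : ∀ (m : List ℤ) (x : ℕ → ℝ), ev (ladd l m) x = ev l x + ev m x := by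
  induction l with
  | nil => intro m x; simp [ladd, ev]
  | cons a l ih =>
    intro m x
    cases m with
    | nil => simp [ladd, ev]
    | cons b m =>
      simp only [ladd, ev, ih]
      push_cast
      ring

lemma ev_lmul (k : ℤ) (l : List ℤ) : ∀ x : ℕ → ℝ, ev (lmul k l) x = k * ev l x := by
  induction l with
  | nil => intro x; simp [lmul, ev]
  | cons a l ih =>
    intro x
    simp only [lmul, ev, ih]
    push_cast
    ring

lemma ev_lzero (l : List ℤ) : lzero l = true → ∀ x : ℕ → ℝ, ev l x = 0 := by
  induction l with
  | nil => intro _ x; rfl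
  | cons a l ih =>
    intro h x
    simp only [lzero, Bool.and_eq_true, beq_iff_eq] at h
    simp [ev, h.1, ih h.2]

lemma holds_nonneg {c : Bool × List ℤ} {x : ℕ → ℝ} (h : holds c x) : 0 ≤ ev c.2 x := by
  unfold holds at h
  split_ifs at h
  · exact h.le
  · exact h

lemma comb_sound (x : ℕ → ℝ) (E : List (Bool × List ℤ)) : ∀ c : ℕ, (∀ e ∈ E, holds e x) →
    0 ≤ ev (comb E c).2 x ∧ ((comb E c).1 = true → 0 < ev (comb E c).2 x) := by
  induction E with
  | nil => intro c _; simp [comb, ev]
  | cons e E ih =>
    obtain ⟨s, l⟩ := e
    intro c hE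
    have hE' : ∀ e ∈ E, holds e x := fun e he => hE e (List.mem_cons_of_mem _ he)
    have h0 : holds (s, l) x := hE _ List.mem_cons_self
    unfold comb
    split_ifs with h1 h2
    · simp [ev]
    · exact ih _ hE'
    · obtain ⟨i1, i2⟩ := ih (c / base) hE'
      have hk : (0 : ℝ) < (((c % base : ℕ) : ℤ) : ℝ) := by
        have : 0 < c % base := Nat.pos_of_ne_zero h2
        exact_mod_cast this
      have hl : 0 ≤ ev l x := holds_nonneg h0
      simp only [ev_ladd, ev_lmul]
      refine ⟨by positivity, fun hs => ?_⟩
      rw [Bool.or_eq_true] at hs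
      rcases hs with hs | hs
      · have := i2 hs
        positivity
      · have h3 : 0 < ev l x := by
          unfold holds at h0
          simpa [hs] using h0
        positivity

lemma fark_sound (x : ℕ → ℝ) (hx : x 0 = 1) (E : List (Bool × List ℤ)) (c : ℕ)
    (hE : ∀ e ∈ E, holds e x) (h : fark E c = true) : False := by
  obtain ⟨i1, i2⟩ := comb_sound x E c hE
  unfold fark at h
  rcases hc : comb E c with ⟨s, l⟩
  rw [hc] at h i1 i2
  cases l with
  | nil => simp at h
  | cons a l =>
    simp only [Bool.and_eq_true, Bool.or_eq_true, decide_eq_true_eq] at h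
    obtain ⟨h1, h2⟩ := h
    have h3 : ev (a :: l) x = a := by
      have := ev_lzero l h1 (fun n => x (n + 1))
      simp [ev, this, hx]
    simp only [h3] at i1 i2
    rcases h2 with h2 | ⟨h2, h4⟩
    · have : ((a : ℤ) : ℝ) < 0 := by exact_mod_cast h2
      linarith
    · have h5 := i2 h4
      have : ((a : ℤ) : ℝ) ≤ 0 := by exact_mod_cast h2
      linarith

lemma mem_sound (k : ℕ) (l : List ℕ) : mem k l = true → k ∈ l := by
  induction l with
  | nil => intro h; simp [mem] at h
  | cons a l ih =>
    intro h
    simp only [mem, Bool.or_eq_true, beq_iff_eq] at h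
    rcases h with h | h
    · rw [h]; exact List.mem_cons_self
    · exact List.mem_cons_of_mem _ (ih h)

lemma sub_sound (l m : List ℕ) : sub l m = true → ∀ k ∈ l, k ∈ m := by
  induction l with
  | nil => intro _ k hk; simp at hk
  | cons a l ih =>
    intro h k hk
    simp only [sub, Bool.and_eq_true] at h
    rcases List.mem_cons.1 hk with hk | hk
    · rw [hk]; exact mem_sound _ _ h.1
    · exact ih h.2 k hk

lemma check_sound (P : List (List ℤ)) (T : List (List ℕ)) (x : ℕ → ℝ) (hx : x 0 = 1)
    (hT : ∀ t < T.length, ∃ k ∈ T.getD t [], 0 < ev (P.getD k []) x) (tr : Tr) :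
    ∀ (E : List (Bool × List ℤ)) (N : List ℕ), (∀ e ∈ E, holds e x) →
      (∀ k ∈ N, ev (P.getD k []) x ≤ 0) → check P T tr E N = true → False := by
  induction tr with
  | fk c => intro E N hE hN h; exact fark_sound x hx E c hE h
  | tl t =>
    intro E N hE hN h
    simp only [check, Bool.and_eq_true, decide_eq_true_eq] at h
    obtain ⟨k, hk, h1⟩ := hT t h.1
    have := hN k (sub_sound _ _ h.2 k hk)
    linarith
  | br k a b iha ihb =>
    intro E N hE hN h
    simp only [check, Bool.and_eq_true] at h
    by_cases hp : 0 < ev (P.getD k []) x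
    · refine iha _ N ?_ hN h.1
      intro e he
      rcases List.mem_cons.1 he with he | he
      · rw [he]; simpa [holds] using hp
      · exact hE e he
    · push Not at hp
      refine ihb _ (k :: N) ?_ ?_ h.2
      · intro e he
        rcases List.mem_cons.1 he with he | he
        · rw [he]
          simp only [holds, ev_lmul]
          simpa using hp
        · exact hE e he
      · intro j hj
        rcases List.mem_cons.1 hj with hj | hj
        · rw [hj]; exact hp
        · exact hN j hj

/-- SOUNDNESS: if the checker accepts, then at every point satisfying the root constraints some tool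
has all its pieces `≤ 0` -/
theorem sound {F : List (Bool × List ℤ)} {P : List (List ℤ)} {T : List (List ℕ)} {tr : Tr}
    (h : check P T tr F [] = true) (x : ℕ → ℝ) (hx : x 0 = 1) (hF : ∀ e ∈ F, holds e x) :
    ∃ t < T.length, ∀ k ∈ T.getD t [], ev (P.getD k []) x ≤ 0 := by
  by_contra hcon
  push Not at hcon
  exact check_sound P T x hx hcon tr F [] hF (fun k hk => by simp at hk) h

end Pool.LPT
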